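import Pool.Agent.H3.RaC

open Pool.Agent.H3.Race Filter Topology

namespace Pool.Agent.Results.MP_8d137a_pr.Cycle

theorem result (ε : ℝ) (hε : 0 < ε) :
    ∃ p : Fin 4 → ℝ, (∀ i, 0 < p i) ∧ ∑ i, p i = 1 ∧ (∀ i, |p i - 1 / 4| < ε) ∧
      1 / 2 < win p [0, 1, 0] [1, 2, 1] ∧ 1 / 2 < win p [1, 2, 1] [2, 3, 2] ∧
      1 / 2 < win p [2, 3, 2] [0, 1, 0] := by
  have p0 : Continuous P0 := by unfold P0; fun_prop
  have p1 : Continuous P1 := by unfold P1; fun_prop
  have p2 : Continuous P2 := by unfold P2; fun_prop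
  have p3 : Continuous P3 := by unfold P3; fun_prop
  have v0 : P0 0 = 1 / 4 := by unfold P0; norm_num
  have v1 : P1 0 = 1 / 4 := by unfold P1; norm_num
  have v2 : P2 0 = 1 / 4 := by unfold P2; norm_num
  have v3 : P3 0 = 1 / 4 := by unfold P3; norm_num
  have near : ∀ f : ℝ → ℝ, Continuous f → f 0 = 1 / 4 →
      ∀ᶠ t in 𝓝 (0 : ℝ), 0 < f t ∧ |f t - 1 / 4| < ε := by
    intro f hf h0
    refine (hf.continuousAt.eventually (lt_mem_nhds (by rw [h0]; norm_num))).and ?_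
    have : Continuous fun t => |f t - 1 / 4| := by fun_prop
    exact this.continuousAt.eventually (gt_mem_nhds (by simpa [h0] using hε))
  have den : ∀ f g u v : ℝ → ℝ, Continuous f → Continuous g → Continuous u → Continuous v →
      f 0 = 1 / 4 → g 0 = 1 / 4 → u 0 = 1 / 4 → v 0 = 1 / 4 → ∀ᶠ t in 𝓝 (0 : ℝ),
      De (f t * g t) (f t * g t * (1 - f t)) (u t * v t) (u t * v t * (1 - u t)) < 0 := by
    intro f g u v hf hg hu hv f0 g0 u0 v0
    have : Continuous fun t =>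
        De (f t * g t) (f t * g t * (1 - f t)) (u t * v t) (u t * v t * (1 - u t)) := by
      unfold De; fun_prop
    refine this.continuousAt.eventually (gt_mem_nhds ?_)
    simp only [f0, g0, u0, v0]; unfold De; norm_num
  have r0 := c0.continuousAt.eventually (gt_mem_nhds z0)
  have r1 := c1.continuousAt.eventually (gt_mem_nhds z1)
  have r2 := c2.continuousAt.eventually (gt_mem_nhds z2)
  have all := ((near _ p0 v0).and ((near _ p1 v1).and ((near _ p2 v2).and (near _ p3 v3)))).and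
    (((den _ _ _ _ p0 p1 p1 p2 v0 v1 v1 v2).and ((den _ _ _ _ p1 p2 p2 p3 v1 v2 v2 v3).and
      (den _ _ _ _ p2 p3 p0 p1 v2 v3 v0 v1))).and (r0.and (r1.and r2)))
  obtain ⟨t, ⟨⟨h0, h1, h2, h3⟩, ⟨d0, d1, d2⟩, s0, s1, s2⟩, ht⟩ :=
    ((all.filter_mono nhdsWithin_le_nhds).and (self_mem_nhdsWithin (s := Set.Ioi (0 : ℝ)))).exists
  have ht3 : 0 < t ^ 3 := pow_pos ht 3
  have hp : ∀ i, 0 < ![P0 t, P1 t, P2 t, P3 t] i := by
    intro i; fin_cases i
    exacts [h0.1, h1.1, h2.1, h3.1]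
  have hs : ∑ i, ![P0 t, P1 t, P2 t, P3 t] i = 1 := by
    rw [Fin.sum_univ_four]
    change P0 t + P1 t + P2 t + P3 t = 1
    unfold P0 P1 P2 P3; ring
  refine ⟨![P0 t, P1 t, P2 t, P3 t], hp, hs, fun i => ?_, ?_, ?_, ?_⟩
  · fin_cases i
    exacts [h0.2, h1.2, h2.2, h3.2]
  · exact win_gt hp hs (by decide) (by decide) d0 ((N0 t).trans_lt (mul_neg_of_pos_of_neg ht3 s0))
  · exact win_gt hp hs (by decide) (by decide) d1 ((N1 t).trans_lt (mul_neg_of_pos_of_neg ht3 s1))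
  · exact win_gt hp hs (by decide) (by decide) d2 ((N2 t).trans_lt (mul_neg_of_pos_of_neg ht3 s2))

end Pool.Agent.Results.MP_8d137a_pr.Cycle
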